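import Pool.Agent.J4H92.TP.Gen
import Pool.Agent.J4H89.TP.Sq
import Pool.Agent.J4H98.TP.Zj
import Pool.Agent.J4H36.TP.Ra
import Pool.Agent.J4H89.TP.Gd
import Pool.Agent.J4H92.TP.Nc

/-!
# Products with trees and other graphs that are not too small

Let `H` be a graph with `h ≥ 7` vertices that is generically rigid in the plane, let `r` be its generic
rank in `ℝ³`, and let `G` be a graph with `m ≥ 2` vertices, `m ≥ 3 h - r - 5`. If `r ≥ 2 h` or if `G`
has no cycle, then the Cartesian product `G □ H` is generically rigid in `ℝ³` if and only if `G` is
connected and either `G` has a cycle or `r > 2 h` and every nonempty set `J` of at most `h - 2`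
vertices of `H` meets more than `2 |J|` edges of `H`. If `r = 2 h + 1`, the bound `m ≥ h - 6` is also
necessary for trees, so that the trees `G` are decided without any condition on `m`. For trees `G`
the first statement holds for all graphs `H` whose square is generically rigid in `ℝ³`, if the
condition on the numbers of edges is replaced by the same condition on the ranks of the
frameworks in which the vertices outside `J` are fixed.

Proof, for a tree `G`. All layers are placed near one generic placement `p` of `H`, the layer of `v` at
`p + t c_v`. For small `t` the motions are `x + t y_v` with a motion `x` of `H` at `p` and, for the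
differences `z` of the `y_v` and `e` of the `c_v` along an edge of the tree, `e_i · z_i = 0` and
`(p_i - p_j) · (z_i - z_j) = - (e_i - e_j) · (x_i - x_j)` for the edges `ij` of `H`. The condition on the
sets `J` says that at a generic placement the motions of `H` that vanish outside `J` have dimension
less than `|J|`; by a theorem of the type of Rado's the directions `e` can be chosen such that no
motion `z ≠ 0` of `H` has `e_i · z_i = 0` for all `i` but one. Then there is a stress of `H` at `p` with
resultant forces `F_i`, all of them different from zero and multiples of the `e_i`, and by changing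
this stress one finds `e` such that a given `x` is impossible unless `x` preserves the distances of any
two neighbours of each vertex. As the square of a graph that is rigid in the plane is rigid in space,
each edge of the tree removes at least one degree of freedom.
-/

set_option autoImplicit false

namespace Pool.Agent.Results.MP_37c7bf_co.LargeFactors

open SimpleGraph Pool.Agent.H789R5 Pool.Agent.H283R2.DR

/-- Each nonempty set `J` of at most `h - 2` vertices of `H`, where `h` is the number of vertices of
`H`, meets more than `2 |J|` edges of `H`. -/
def ManyEdges {W : Type} [Fintype W] (H : SimpleGraph W) : Prop :=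
  ∀ J : Set W, J.Nonempty → J.ncard + 2 ≤ Fintype.card W →
    2 * J.ncard < ({e ∈ H.edgeSet | ∃ x ∈ J, x ∈ e} : Set (Sym2 W)).ncard

/-- Let `H` be a graph with `h ≥ 7` vertices, let `r` be its generic rank in `ℝ³` and let `G` be a finite
graph with `m ≥ 2` vertices.
(1) If `H` is generically rigid in the plane, `m ≥ 3 h - r - 5` and if `r ≥ 2 h` or `G` has no cycle, then
`G □ H` is generically rigid in `ℝ³` if and only if `G` is connected and either `G` has a cycle or
`r > 2 h` and each nonempty set `J` of at most `h - 2` vertices of `H` meets more than `2 |J|` edges.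
(2) If `H` is generically rigid in the plane, `r = 2 h + 1` and `G` is a tree, then `G □ H` is generically
rigid in `ℝ³` if and only if `m ≥ h - 6` and each nonempty set `J` of at most `h - 2` vertices of `H`
meets more than `2 |J|` edges.
(3) If the square `Sq H` (the graph in which the vertices at distance one or two in `H` are adjacent)
is generically rigid in `ℝ³`, `G` is a tree and `m ≥ 3 h - r - 5`, then `G □ H` is generically rigid in
`ℝ³` if and only if `r > 2 h` and for each nonempty set `J` of at most `h - 2` vertices of `H` there is a
placement `p` of `H` in `ℝ³` such that the infinitesimal motions of `H` at `p` that vanish outside `J`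
form a space `Zs H p J` of dimension less than `|J|`. -/
theorem result (V W : Type) [Fintype V] [Fintype W] (G : SimpleGraph V) (H : SimpleGraph W)
    (hW : 7 ≤ Fintype.card W) (hV : 2 ≤ Fintype.card V) :
    (GenRigid 2 H → 3 * Fintype.card W ≤ genRank 3 H + Fintype.card V + 5 →
      (2 * Fintype.card W ≤ genRank 3 H ∨ G.IsAcyclic) →
      (GenRigid 3 (G □ H) ↔ G.Connected ∧
        (¬ G.IsAcyclic ∨ (2 * Fintype.card W < genRank 3 H ∧ ManyEdges H)))) ∧
    (GenRigid 2 H → genRank 3 H = 2 * Fintype.card W + 1 → G.IsTree →
      (GenRigid 3 (G □ H) ↔ Fintype.card W ≤ Fintype.card V + 6 ∧ ManyEdges H)) ∧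
    (GenRigid 3 (Pool.Agent.J4H92.TP.Sq H) → G.IsTree →
      3 * Fintype.card W ≤ genRank 3 H + Fintype.card V + 5 →
      (GenRigid 3 (G □ H) ↔ 2 * Fintype.card W < genRank 3 H ∧
        ∀ J : Set W, J.Nonempty → J.ncard + 2 ≤ Fintype.card W →
          ∃ p : W → Fin 3 → ℝ,
            Module.finrank ℝ (Pool.Agent.J4H92.TP.Zs H p J) < J.ncard)) := by
  have hSQ := Pool.Agent.J4H89.TP.t_SQ
  have hZJ := Pool.Agent.J4H98.TP.t_ZJ
  have hRA := Pool.Agent.J4H36.TP.t_RA
  have hGD := Pool.Agent.J4H89.TP.t_GD
  have hNC := Pool.Agent.J4H92.TP.t_NC
  have hD : ManyEdges H ↔ Pool.Agent.J4H92.TP.Dense H := Iff.rfl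
  refine ⟨fun hH hm hr => ?_, fun hH hr hG => ?_, fun hS hG hm => ?_⟩
  · rw [Pool.Agent.J4H92.TP.crit_all hSQ hZJ hRA hGD hNC hH hW hV hr hm]
    refine and_congr Iff.rfl ⟨fun h => ?_, fun h ha => ?_⟩
    · by_cases ha : G.IsAcyclic
      · exact Or.inr (h ha)
      · exact Or.inl ha
    · exact h.resolve_left fun hn => hn ha
  · exact Pool.Agent.J4H92.TP.crit_min hSQ hZJ hRA hGD hNC hH hW hV hG hr
  · exact Pool.Agent.J4H92.TP.crit_tree hRA hGD hG hS hW hV hm

end Pool.Agent.Results.MP_37c7bf_co.LargeFactors
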