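import Mathlib
import Pool.Agent.J4H92.CT.All

/-!
# Generic rigidity in space of Cartesian products of trees

The Cartesian product of any finite number of trees has the generic rank `min (|E|, 3 n - 6)` in `ℝ³`:
it is generically rigid if it has enough edges, and otherwise its edges are independent. So for
products of trees (e.g. grids of any dimension) Maxwell's count decides, and the answer depends only
on the numbers of vertices of the trees.
-/

set_option autoImplicit false

namespace Pool.Agent.Results.MP_37c7bf_co.ProductsOfTrees

open Pool.Agent.H789R5 Pool.Agent.H283R2.DR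

/-- The Cartesian product of a family of graphs: two elements of the product of the vertex sets are
adjacent if they differ in exactly one coordinate and are adjacent there. -/
def cartesianProduct {ι : Type} {V : ι → Type} (G : ∀ i, SimpleGraph (V i)) :
    SimpleGraph (∀ i, V i) where
  Adj x y := ∃ i, (G i).Adj (x i) (y i) ∧ ∀ j, j ≠ i → x j = y j
  symm := ⟨fun _ _ ⟨i, h1, h2⟩ => ⟨i, h1.symm, fun j hj => (h2 j hj).symm⟩⟩
  loopless := ⟨fun _ ⟨_, h1, _⟩ => h1.ne rfl⟩

/-- Let `G i`, for `i` in a finite set, be finite trees with at least two vertices each, and let `n`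
and `|E|` be the numbers of vertices and edges of their Cartesian product, `3 ≤ n`. (1) The generic
rank of the product in `ℝ³` is the minimum of `|E|` and `3 n - 6`. (2) The product is generically rigid
in `ℝ³` if and only if `3 n ≤ |E| + 6`. (3) In terms of the numbers `n i` of vertices of the `k` trees,
it is generically rigid in `ℝ³` if and only if `3 n + ∑ i, n / n i ≤ k n + 6`. -/
theorem result (ι : Type) [Fintype ι] [DecidableEq ι] (V : ι → Type) [∀ i, Fintype (V i)]
    (G : ∀ i, SimpleGraph (V i)) (hG : ∀ i, (G i).IsTree)
    (hV : ∀ i, 2 ≤ Fintype.card (V i)) (h3 : 3 ≤ Fintype.card (∀ i, V i)) :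
    genRank 3 (cartesianProduct G) =
      min (cartesianProduct G).edgeSet.ncard (3 * Fintype.card (∀ i, V i) - 6) ∧
    (GenRigid 3 (cartesianProduct G) ↔
      3 * Fintype.card (∀ i, V i) ≤ (cartesianProduct G).edgeSet.ncard + 6) ∧
    (GenRigid 3 (cartesianProduct G) ↔ 3 * Fintype.card (∀ i, V i) +
      ∑ i, Fintype.card (∀ i, V i) / Fintype.card (V i) ≤
        Fintype.card ι * Fintype.card (∀ i, V i) + 6) :=
  Pool.Agent.J4H92.CT.tree_fam G hG hV h3

end Pool.Agent.Results.MP_37c7bf_co.ProductsOfTrees
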