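import Pool.Agent.J4H92.NC.B5
import Pool.Agent.J4H92.NC.Fin2

/-!
# A partition formula for the rank of the product of an arbitrary graph with a plane-rigid graph

Let `H` be a graph with `h` vertices that is generically rigid in the plane, let `r` be its generic
rank in `ℝ³`, suppose that `r ≤ 2 h` and that `h ≥ 12` (or `h ≥ 6` and `r ≥ 2 h - 2`), and let `G` be an
arbitrary nonempty finite graph with `m` vertices. The number of degrees of freedom
`3 m h - rank (G □ H)` of the Cartesian product in `ℝ³` is the maximum, over all partitions of the
vertex set of `G`, of `6 k + (3 h - r - 6) s - h e`, where `k` is the number of classes, `s` the number of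
classes with one vertex and `e` the number of edges of `G` between different classes. So `G □ H` is
generically rigid in `ℝ³` if and only if `6 (k - 1) + (3 h - r - 6) s ≤ h e` for all partitions. If
`r ≥ 2 h` and `G` is connected and not a tree, then `G □ H` is always generically rigid in `ℝ³` (here
`h ≥ 3` is enough). For `h ≥ 3` there are two sufficient conditions.

Proof of the formula. The value of a partition is a lower bound: each class contributes at least
`6`, a layer contributes `3 h - r`, and each edge between classes gives `h` conditions. For the upper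
bound take a minimal counterexample `G` (with few vertices, then few edges). It is connected, all
edges are critical, there is no vertex of degree one and no bridge (a bridge is contracted: the two
layers get infinitely close); a vertex of degree two with two nonadjacent neighbours is contracted
to one of them (again the layers get infinitely close, the directions of the bars between them being
selected one after the other). Merging and refining the classes of a critical partition gives one
whose classes are single vertices or rigid parts, such that every proper rigid part is contained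
in a class. The vertices of degree two which are classes lie in disjoint triangles of such vertices,
each of them with at least eight as the sum of its degrees, all other classes are left by at least
two edges, those with one vertex by three; this contradicts the value of the partition.
-/

set_option autoImplicit false

namespace Pool.Agent.Results.MP_37c7bf_co.RankFormula

open SimpleGraph Pool.Agent.H789R5 Pool.Agent.H283R2.DR

/-- Let `H` be a graph with `h` vertices that is generically rigid in the plane, let `r` be its generic
rank in `ℝ³` and let `G` be a nonempty finite graph with `m` vertices. A map `f : V → ℕ` stands for the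
partition of `V` into its nonempty fibres.
(1) If `r ≤ 2 h` and either `h ≥ 12` or `h ≥ 6` and `r ≥ 2 h - 2`, then `3 m h` minus the generic rank of
`G □ H` in `ℝ³` is the maximum over all partitions of `6 k + (3 h - r - 6) s - h e`, where `k` is the
number of classes, `s` the number of classes with one vertex and `e` the number of edges of `G`
that join different classes; and
(2) `G □ H` is generically rigid in `ℝ³` if and only if `6 k + (3 h - r - 6) s ≤ 6 + h e` for every
partition.
(3) If `h ≥ 3`, `r ≥ 2 h` and `G` is connected and not a tree, then `G □ H` is generically rigid in `ℝ³`.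
(4) If `h ≥ 3`, `G` is connected, all degrees of `G` are at least two, one of them is at least three and
`3 m ≤ h + 6`, then `G □ H` is generically rigid in `ℝ³`.
(5) If `h ≥ 3`, `m ≥ 2` and `G` has two edge-disjoint spanning trees, then `G □ H` is generically rigid
in `ℝ³`. -/
theorem result (V W : Type) [Fintype V] [Fintype W] [Nonempty V] (G : SimpleGraph V)
    (H : SimpleGraph W) (hH : GenRigid 2 H) :
    ((12 ≤ Fintype.card W ∨ (6 ≤ Fintype.card W ∧ 2 * Fintype.card W ≤ genRank 3 H + 2)) →
      genRank 3 H ≤ 2 * Fintype.card W →
      IsGreatest (Set.range fun f : V → ℕ => 6 * ((Set.range f).ncard : ℤ) +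
          (3 * (Fintype.card W : ℤ) - genRank 3 H - 6) *
            ({v | ∀ w, f w = f v → w = v} : Set V).ncard -
          Fintype.card W * ({e ∈ G.edgeSet | ¬ (e.map f).IsDiag} : Set (Sym2 V)).ncard)
        (3 * ((Fintype.card V : ℤ) * Fintype.card W) - genRank 3 (G □ H)) ∧
      (GenRigid 3 (G □ H) ↔ ∀ f : V → ℕ, 6 * ((Set.range f).ncard : ℤ) +
          (3 * (Fintype.card W : ℤ) - genRank 3 H - 6) *
            ({v | ∀ w, f w = f v → w = v} : Set V).ncard ≤
          6 + Fintype.card W * ({e ∈ G.edgeSet | ¬ (e.map f).IsDiag} : Set (Sym2 V)).ncard)) ∧
    (3 ≤ Fintype.card W → G.Connected →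
      (¬ G.IsAcyclic → 2 * Fintype.card W ≤ genRank 3 H → GenRigid 3 (G □ H)) ∧
      ((∀ v, 2 ≤ (G.neighborSet v).ncard) → (∃ v, 3 ≤ (G.neighborSet v).ncard) →
        3 * Fintype.card V ≤ Fintype.card W + 6 → GenRigid 3 (G □ H)) ∧
      (2 ≤ Fintype.card V → (∃ T₁ T₂ : SimpleGraph V, T₁ ≤ G ∧ T₂ ≤ G ∧ T₁.IsTree ∧ T₂.IsTree ∧
        Disjoint T₁ T₂) → GenRigid 3 (G □ H))) := by
  refine ⟨fun hW hr => ?_, fun hW hG => ?_⟩
  · obtain ⟨d, hd⟩ : ∃ d, genRank 3 H + d = 2 * Fintype.card W :=
      ⟨2 * Fintype.card W - genRank 3 H, by omega⟩
    have hh : 12 ≤ Fintype.card W ∨ (6 ≤ Fintype.card W ∧ d ≤ 2) := by omega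
    have hv : ∀ f : V → ℕ, Pool.Agent.J4H92.NC.vl (Fintype.card W) d G f =
        6 * ((Set.range f).ncard : ℤ) +
          (3 * (Fintype.card W : ℤ) - genRank 3 H - 6) *
            ({v | ∀ w, f w = f v → w = v} : Set V).ncard -
          Fintype.card W * ({e ∈ G.edgeSet | ¬ (e.map f).IsDiag} : Set (Sym2 V)).ncard := by
      intro f
      rw [← Pool.Agent.J4H92.NC.cf_edges]
      have e : (3 * (Fintype.card W : ℤ) - genRank 3 H - 6) = (Fintype.card W : ℤ) + d - 6 := by
        have : (genRank 3 H : ℤ) + d = 2 * Fintype.card W := by exact_mod_cast hd
        linarith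
      rw [e]
      rfl
    constructor
    · have h1 := Pool.Agent.J4H92.NC.dof_greatest2 (G := G) hh hH hd
      rw [funext hv] at h1
      exact h1
    · rw [Pool.Agent.J4H92.NC.rigid_iff_vl2 hh hH hd]
      refine forall_congr' fun f => ?_
      rw [hv f]
      constructor
      · intro h
        linarith
      · intro h
        linarith
  · have hV : 1 ≤ Fintype.card V := Fintype.card_pos
    refine ⟨fun h1 h2 => ?_, fun h1 h2 h3 => ?_, fun h1 h2 => ?_⟩
    · exact Pool.Agent.J4H92.NC.rigid_of_mu
        (Pool.Agent.J4H92.NC.rank_rigid hG h1 hH (by omega) h2) hV hW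
    · obtain ⟨v, hv⟩ := h2
      exact Pool.Agent.J4H92.NC.rigid_of_mu
        (Pool.Agent.J4H92.NC.leafless_rigid hH _ V G rfl hG
          (fun v => Pool.Agent.J4H92.NC.two_of_deg (h1 v))
          (Pool.Agent.J4H92.NC.three_of_deg hv) h3) hV hW
    · obtain ⟨T₁, T₂, h3, h4, h5, h6, h7⟩ := h2
      exact Pool.Agent.J4H92.NC.rigid_of_mu
        (Pool.Agent.J4H92.NC.two_trees h1 h3 h4 h5.connected h6.connected h7 hH hW) hV hW

end Pool.Agent.Results.MP_37c7bf_co.RankFormula
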