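import Mathlib
import Pool.Agent.J4H92.CP.Weights

/-!
# Generic rigidity in space of Cartesian products with three or four factors

The Cartesian product of connected finite graphs with at least two vertices each is generically rigid
in `ℝ³` if the number of factors plus the number of factors which are not trees is at least six:
three factors none of which is a tree (e.g. three-dimensional discrete tori), or four factors at least
two of which are not trees, and so on.
-/

set_option autoImplicit false

namespace Pool.Agent.Results.MP_37c7bf_co.ThreeAndFourFactors

open Pool.Agent.H789R5 Pool.Agent.H283R2.DR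

/-- The Cartesian product of a family of graphs: two elements of the product of the vertex sets are
adjacent if they differ in exactly one coordinate and are adjacent there. -/
def cartesianProduct {ι : Type} {V : ι → Type} (G : ∀ i, SimpleGraph (V i)) :
    SimpleGraph (∀ i, V i) where
  Adj x y := ∃ i, (G i).Adj (x i) (y i) ∧ ∀ j, j ≠ i → x j = y j
  symm := ⟨fun _ _ ⟨i, h1, h2⟩ => ⟨i, h1.symm, fun j hj => (h2 j hj).symm⟩⟩
  loopless := ⟨fun _ ⟨_, h1, _⟩ => h1.ne rfl⟩

/-- Let `G i`, for `i` in a finite set, be connected finite graphs with at least two vertices each.
If the number of factors plus the number of factors that are not trees is at least six, then the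
Cartesian product is generically rigid in `ℝ³` and its generic rank in `ℝ³` is `3 n - 6`, where `n` is
its number of vertices. So three factors suffice if none of them is a tree, and four factors suffice
if at least two of them are not trees. -/
theorem result (ι : Type) [Fintype ι] [DecidableEq ι] (V : ι → Type) [∀ i, Fintype (V i)]
    (G : ∀ i, SimpleGraph (V i)) (hG : ∀ i, (G i).Connected)
    (hV : ∀ i, 2 ≤ Fintype.card (V i))
    (h6 : 6 ≤ Fintype.card ι + {i | ¬ (G i).IsTree}.ncard) :
    GenRigid 3 (cartesianProduct G) ∧
      genRank 3 (cartesianProduct G) + 6 = 3 * Fintype.card (∀ i, V i) :=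
  Pool.Agent.J4H92.CP.weights_fam G hG hV h6

end Pool.Agent.Results.MP_37c7bf_co.ThreeAndFourFactors
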